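import Pool.Agent.D0H65.SFK.IDX
import Pool.Agent.D0H15.SF.Cas

/-!
# Project SFK, module CAS (adapted from `Pool.Agent.D0H15.SF.Cas`)
-/

set_option autoImplicit false
set_option linter.all false

open Polynomial NumberField Module
open scoped Pointwise

namespace Pool.Agent.D0H15.SK

open Pool.Agent.D0H15.SF (Z exists_small sep sep_pow pow_top)
open Pool.Agent.D0H65.SFK (ext_emb)

section

variable {K : Type} [Field K] [NumberField K]

/-- the discriminant is bounded by means of a `K`-basis of small integers -/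
theorem db_of_basis (L : IntermediateField K (AlgebraicClosure K)) [FiniteDimensional K L]
    {ι : Type} [Fintype ι]
    [DecidableEq ι] (B : Module.Basis ι K L) (hB : ∀ i, IsIntegral ℤ (B i)) (H T : ℝ) (hH0 : 0 ≤ H)
    (hH : ∀ (φ : K →+* ℂ) (i : Module.Free.ChooseBasisIndex ℤ (𝓞 K)),
      ‖φ (integralBasis K i)‖ ≤ H)
    (hβ : ∀ i, Siz (B i : AlgebraicClosure K) T) :
    DB L (((Nat.factorial (finrank ℚ K * Fintype.card ι) : ℝ) *
      (H * T) ^ (finrank ℚ K * Fintype.card ι)) ^ 2) := by
  classical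
  have : FiniteDimensional ℚ L := FiniteDimensional.trans ℚ K _
  have : NumberField L := {}
  refine ⟨inferInstance, ?_⟩
  obtain ⟨b, hb⟩ : ∃ b : Module.Basis (Module.Free.ChooseBasisIndex ℤ (𝓞 K) × ι) ℚ L,
      ∀ i, b i = algebraMap K L (integralBasis K i.1) * B i.2 := by
    refine ⟨(integralBasis K).smulTower B, fun i => ?_⟩
    rw [Module.Basis.smulTower_apply, Algebra.smul_def]
  have hbint : ∀ i, IsIntegral ℤ (b i) := by
    intro i
    rw [hb]
    refine IsIntegral.mul ?_ (hB _)
    have h3 : IsIntegral ℤ (integralBasis K i.1) := by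
      rw [integralBasis_apply]
      exact RingOfIntegers.isIntegral_coe _
    exact h3.map (Algebra.algHom ℤ K _)
  have h1 := Pool.Agent.D0H15.SF.discr_le b hbint
  have hcardd : Fintype.card (Module.Free.ChooseBasisIndex ℤ (𝓞 K)) = finrank ℚ K := by
    rw [← Module.finrank_eq_card_basis (integralBasis K)]
  have h2 := Pool.Agent.D0H15.SF.discr_bound b (fun _ => H * T) (by
    intro τ i
    obtain ⟨φ, hφ⟩ := ext_emb L τ
    rw [hb, map_mul, norm_mul]
    have h4 : ‖τ (algebraMap K L (integralBasis K i.1))‖ ≤ H :=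
      hH (τ.comp (algebraMap K L)) i.1
    have h5 : ‖τ (B i.2)‖ ≤ T := by
      rw [← hφ]
      exact hβ i.2 φ
    exact mul_le_mul h4 h5 (norm_nonneg _) hH0)
  rw [Finset.prod_const, Finset.card_univ, Fintype.card_prod, hcardd] at h2
  have h4 : ((|NumberField.discr L| : ℤ) : ℝ) ≤ ((|Algebra.discr ℚ b| : ℚ) : ℝ) := by
    have h5 : ((|NumberField.discr L| : ℤ) : ℚ) ≤ |Algebra.discr ℚ b| := by
      rw [Int.cast_abs]; exact h1
    exact_mod_cast (Rat.cast_le (K := ℝ)).2 h5
  exact h4.trans h2

variable (K) in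
/-- the size of the integral basis -/
theorem exists_H : ∃ H : ℝ, 1 ≤ H ∧ ∀ (φ : K →+* ℂ)
    (i : Module.Free.ChooseBasisIndex ℤ (𝓞 K)), ‖φ (integralBasis K i)‖ ≤ H := by
  have hft : Fintype (K →+* ℂ) := Fintype.ofFinite _
  refine ⟨1 + ∑ φ : K →+* ℂ, ∑ i, ‖φ (integralBasis K i)‖, ?_, fun φ i => ?_⟩
  · have : 0 ≤ ∑ φ : K →+* ℂ, ∑ i, ‖φ (integralBasis K i)‖ :=
      Finset.sum_nonneg fun φ _ => Finset.sum_nonneg fun i _ => norm_nonneg _
    linarith
  · have h1 : ‖φ (integralBasis K i)‖ ≤ ∑ i, ‖φ (integralBasis K i)‖ :=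
      Finset.single_le_sum (f := fun i => ‖φ (integralBasis K i)‖)
        (fun i _ => norm_nonneg _) (Finset.mem_univ i)
    have h2 : ∑ i, ‖φ (integralBasis K i)‖ ≤ ∑ φ : K →+* ℂ, ∑ i, ‖φ (integralBasis K i)‖ :=
      Finset.single_le_sum (f := fun φ : K →+* ℂ => ∑ i, ‖φ (integralBasis K i)‖)
        (fun φ _ => Finset.sum_nonneg fun i _ => norm_nonneg _) (Finset.mem_univ φ)
    linarith

/-- the vector of the conjugates -/
noncomputable def vec (L : IntermediateField K (AlgebraicClosure K)) : L →ₐ[K] ((L →ₐ[K] AlgebraicClosure K) → (AlgebraicClosure K)) where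
  toFun x φ := φ x
  map_one' := by funext φ; simp
  map_mul' := by intro x y; funext φ; simp
  map_zero' := by funext φ; simp
  map_add' := by intro x y; funext φ; simp
  commutes' := by intro r; funext φ; simp

theorem vec_apply (L : IntermediateField K (AlgebraicClosure K)) (x : L) (φ : L →ₐ[K] AlgebraicClosure K) : vec L x φ = φ x := rfl

/-- elements independent over `ℚ` have vectors of conjugates independent over `(AlgebraicClosure K)` -/
theorem vec_indep (L : IntermediateField K (AlgebraicClosure K)) [FiniteDimensional K L] {ι : Type} (x : ι → L)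
    (hx : LinearIndependent K x) : LinearIndependent (AlgebraicClosure K) (fun i => vec L (x i)) := by
  classical
  let b := Module.Basis.extend hx.linearIndepOn_id
  have : Finite (hx.linearIndepOn_id.extend (Set.subset_univ (Set.range x))) :=
    Module.Finite.finite_basis b
  let _ : Fintype (hx.linearIndepOn_id.extend (Set.subset_univ (Set.range x))) :=
    Fintype.ofFinite _
  have hcard : Fintype.card (hx.linearIndepOn_id.extend (Set.subset_univ (Set.range x))) =
      Fintype.card (L →ₐ[K] AlgebraicClosure K) := by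
    rw [AlgHom.card, Module.finrank_eq_card_basis b]
  obtain ⟨e⟩ : Nonempty ((hx.linearIndepOn_id.extend (Set.subset_univ (Set.range x))) ≃
      (L →ₐ[K] AlgebraicClosure K)) := ⟨Fintype.equivOfCardEq hcard⟩
  have h1 := Algebra.discr_eq_det_embeddingsMatrixReindex_pow_two K (AlgebraicClosure K) (b : _ → L) e
  have h2 : (Algebra.embeddingsMatrixReindex K (AlgebraicClosure K) (b : _ → L) e).det ≠ 0 := by
    intro h
    rw [h] at h1
    have h3 := Algebra.discr_not_zero_of_basis K b
    rw [zero_pow two_ne_zero] at h1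
    exact h3 ((map_eq_zero _).1 h1)
  have h3 := Matrix.linearIndependent_rows_of_det_ne_zero h2
  have h4 : LinearIndependent (AlgebraicClosure K) (fun k => vec L (b k)) := by
    have h5 := h3.map' (LinearMap.funLeft (AlgebraicClosure K) (AlgebraicClosure K) e.symm) (by
      rw [LinearMap.ker_eq_bot]
      exact LinearMap.funLeft_injective_of_surjective (AlgebraicClosure K) (AlgebraicClosure K) _ e.symm.surjective)
    have h6 : (fun k => vec L (b k)) = (LinearMap.funLeft (AlgebraicClosure K) (AlgebraicClosure K) e.symm) ∘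
        (fun k => Algebra.embeddingsMatrixReindex K (AlgebraicClosure K) (b : _ → L) e k) := by
      funext k
      funext φ
      simp [Algebra.embeddingsMatrixReindex, Algebra.embeddingsMatrix, vec_apply,
        LinearMap.funLeft_apply]
    rw [h6]
    exact h5
  let g : ι → (hx.linearIndepOn_id.extend (Set.subset_univ (Set.range x))) := fun i =>
    ⟨x i, hx.linearIndepOn_id.subset_extend _ ⟨i, rfl⟩⟩
  have hg : Function.Injective g := by
    intro i j hij
    exact hx.injective (congrArg Subtype.val hij)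
  have h5 := h4.comp g hg
  have h6 : (fun i => vec L (x i)) = (fun k => vec L (b k)) ∘ g := by
    funext i
    simp only [Function.comp_apply]
    rw [Module.Basis.extend_apply_self]
  rw [h6]
  exact h5

/-- the conjugate of a vector of conjugates -/
theorem conj_mem (L : IntermediateField K (AlgebraicClosure K)) {ι : Type} (x : ι → L) (σ : AlgebraicClosure K ≃ₐ[K] AlgebraicClosure K)
    (v : (L →ₐ[K] AlgebraicClosure K) → (AlgebraicClosure K)) (hv : v ∈ Submodule.span (AlgebraicClosure K) (Set.range fun i => vec L (x i))) :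
    (fun φ : L →ₐ[K] AlgebraicClosure K => σ (v (σ.symm.toAlgHom.comp φ))) ∈
      Submodule.span (AlgebraicClosure K) (Set.range fun i => vec L (x i)) := by
  induction hv using Submodule.span_induction with
  | mem v hv =>
    obtain ⟨i, rfl⟩ := hv
    refine Submodule.subset_span ⟨i, ?_⟩
    funext φ
    simp [vec_apply]
  | zero =>
    have : (fun φ : L →ₐ[K] AlgebraicClosure K => σ ((0 : (L →ₐ[K] AlgebraicClosure K) → (AlgebraicClosure K)) (σ.symm.toAlgHom.comp φ))) = 0 := by
      funext φ
      simp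
    rw [this]
    exact Submodule.zero_mem _
  | add u v _ _ hu hv =>
    have : (fun φ : L →ₐ[K] AlgebraicClosure K => σ ((u + v) (σ.symm.toAlgHom.comp φ))) =
        (fun φ : L →ₐ[K] AlgebraicClosure K => σ (u (σ.symm.toAlgHom.comp φ))) +
          (fun φ : L →ₐ[K] AlgebraicClosure K => σ (v (σ.symm.toAlgHom.comp φ))) := by
      funext φ
      simp
    rw [this]
    exact Submodule.add_mem _ hu hv
  | smul c v _ hv =>
    have : (fun φ : L →ₐ[K] AlgebraicClosure K => σ ((c • v) (σ.symm.toAlgHom.comp φ))) =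
        (σ c) • (fun φ : L →ₐ[K] AlgebraicClosure K => σ (v (σ.symm.toAlgHom.comp φ))) := by
      funext φ
      simp
    rw [this]
    exact Submodule.smul_mem _ _ hv

/-- no nonzero vector of a symmetric space of dimension `J + 1` vanishes at `J + 1` points -/
theorem no_vanish (L : IntermediateField K (AlgebraicClosure K)) [FiniteDimensional K L] (hS : Sym L) {J : ℕ}
    (x : Fin (J + 1) → L) (hx : LinearIndependent K x) (I : Finset (L →ₐ[K] AlgebraicClosure K))
    (hI : I.card = J + 1) (v : (L →ₐ[K] AlgebraicClosure K) → (AlgebraicClosure K))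
    (hv : v ∈ Submodule.span (AlgebraicClosure K) (Set.range fun i => vec L (x i))) (h0 : ∀ i ∈ I, v i = 0) :
    v = 0 := by
  classical
  have hdim : finrank (AlgebraicClosure K) (Submodule.span (AlgebraicClosure K) (Set.range fun i => vec L (x i))) = J + 1 := by
    rw [finrank_span_eq_card (vec_indep L x hx), Fintype.card_fin]
  have hA : J + 1 ≤ Fintype.card (L →ₐ[K] AlgebraicClosure K) := by
    rw [← hdim, ← Module.finrank_fintype_fun_eq_card (AlgebraicClosure K) (η := (L →ₐ[K] AlgebraicClosure K))]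
    exact Submodule.finrank_le _
  obtain ⟨I2, hI2, hr⟩ := exists_small (Submodule.span (AlgebraicClosure K) (Set.range fun i => vec L (x i)))
    (J + 1) hdim.le hA (J + 1) le_rfl
  have hbot : (Submodule.span (AlgebraicClosure K) (Set.range fun i => vec L (x i)) ⊓ Z I2 :
      Submodule (AlgebraicClosure K) ((L →ₐ[K] AlgebraicClosure K) → (AlgebraicClosure K))) = ⊥ := by
    rw [← Submodule.finrank_eq_zero]
    omega
  -- a permutation which maps `I` to `I2`
  have e : {x // x ∈ I} ≃ {x // x ∈ I2} := Finset.equivOfCardEq (hI.trans hI2.symm)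
  let τ : Equiv.Perm (L →ₐ[K] AlgebraicClosure K) := e.extendSubtype
  have hτ : ∀ φ ∈ I, τ φ ∈ I2 := fun φ hφ => e.extendSubtype_mem φ hφ
  have hmap : I.map τ.toEmbedding = I2 := by
    refine Finset.eq_of_subset_of_card_le ?_ ?_
    · intro ψ hψ
      obtain ⟨φ, hφ, rfl⟩ := Finset.mem_map.1 hψ
      exact hτ φ hφ
    · rw [Finset.card_map, hI, hI2]
  obtain ⟨σ, hσ⟩ := hS τ
  have h1 := conj_mem L x σ v hv
  have h2 : (fun φ : L →ₐ[K] AlgebraicClosure K => σ (v (σ.symm.toAlgHom.comp φ))) ∈
      (Submodule.span (AlgebraicClosure K) (Set.range fun i => vec L (x i)) ⊓ Z I2 :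
        Submodule (AlgebraicClosure K) ((L →ₐ[K] AlgebraicClosure K) → (AlgebraicClosure K))) := by
    refine ⟨h1, ?_⟩
    intro ψ hψ
    rw [← hmap] at hψ
    obtain ⟨φ, hφ, rfl⟩ := Finset.mem_map.1 hψ
    have h3 : σ.symm.toAlgHom.comp (τ.toEmbedding φ) = φ := by
      change σ.symm.toAlgHom.comp (τ φ) = φ
      rw [hσ]
      ext y
      simp
    simp only [h3, h0 φ hφ, map_zero]
  rw [hbot, Submodule.mem_bot] at h2
  funext φ
  have h3 := congrFun h2 (σ.toAlgHom.comp φ)
  have h4 : σ.symm.toAlgHom.comp (σ.toAlgHom.comp φ) = φ := by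
    ext y
    simp
  simp only [h4, Pi.zero_apply] at h3
  exact (map_eq_zero σ).1 h3

/-- products of `c` small integers -/
theorem pow_small (L : IntermediateField K (AlgebraicClosure K)) (S : Set L) (T : ℝ)
    (hS : ∀ y ∈ S, IsIntegral ℤ y ∧ Siz (y : (AlgebraicClosure K)) T) (c : ℕ) :
    ∀ y ∈ S ^ c, IsIntegral ℤ y ∧ Siz (y : (AlgebraicClosure K)) (T ^ c) := by
  induction c with
  | zero =>
    intro y hy
    rw [pow_zero, Set.mem_one] at hy
    subst hy
    refine ⟨isIntegral_one, fun φ => ?_⟩
    simp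
  | succ c ih =>
    intro y hy
    rw [pow_succ, Set.mem_mul] at hy
    obtain ⟨a, ha, b, hb, rfl⟩ := hy
    obtain ⟨ha1, ha2⟩ := ih a ha
    obtain ⟨hb1, hb2⟩ := hS b hb
    refine ⟨ha1.mul hb1, fun φ => ?_⟩
    have : φ ((a * b : L) : (AlgebraicClosure K)) = φ (a : (AlgebraicClosure K)) * φ (b : (AlgebraicClosure K)) := by
      rw [← map_mul]; rfl
    rw [this, norm_mul, pow_succ]
    exact mul_le_mul (ha2 φ) (hb2 φ) (norm_nonneg _) ((norm_nonneg _).trans (ha2 φ))

end

theorem t_CAS : S_CAS := by
  classical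
  intro K _ _ n J c hn hJ hnc
  obtain ⟨H, hH1, hH⟩ := exists_H K
  refine ⟨(Nat.factorial (finrank ℚ K * n) : ℝ) * H ^ (finrank ℚ K * n), ?_, ?_⟩
  · have h1 : (1 : ℝ) ≤ Nat.factorial (finrank ℚ K * n) := by
      exact_mod_cast Nat.succ_le_of_lt (Nat.factorial_pos _)
    have h2 : (1 : ℝ) ≤ H ^ (finrank ℚ K * n) := one_le_pow₀ hH1
    nlinarith
  intro L T w hfin hS hT hw hli
  have : FiniteDimensional K L := FiniteDimensional.of_finrank_pos (by omega)
  let x : Fin (J + 1) → L := Fin.cons 1 (fun i => ⟨w i, (hw i).1⟩)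
  have hx : LinearIndependent K x := by
    refine LinearIndependent.of_comp L.val.toLinearMap ?_
    have : (L.val.toLinearMap : L → (AlgebraicClosure K)) ∘ x = (Fin.cons 1 w : Fin (J + 1) → (AlgebraicClosure K)) := by
      funext i
      refine Fin.cases ?_ (fun j => ?_) i
      · simp [x]
      · simp [x]
    rw [this]
    exact hli
  have hxs : ∀ y ∈ Set.range x, IsIntegral ℤ y ∧ Siz (y : (AlgebraicClosure K)) T := by
    rintro y ⟨i, rfl⟩
    refine Fin.cases ?_ (fun j => ?_) i
    · refine ⟨isIntegral_one, fun φ => ?_⟩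
      simpa [x] using hT
    · refine ⟨?_, fun φ => ?_⟩
      · have h1 := (hw j).2.1
        have h2 : IsIntegral ℤ ((⟨w j, (hw j).1⟩ : L)) :=
          (isIntegral_algHom_iff (L.val.restrictScalars ℤ) L.val.injective).1 h1
        simpa [x] using h2
      · simpa [x] using (hw j).2.2 φ
  obtain ⟨W, hW⟩ : ∃ W : Submodule (AlgebraicClosure K) ((L →ₐ[K] AlgebraicClosure K) → (AlgebraicClosure K)),
      W = Submodule.span (AlgebraicClosure K) (Set.range fun i => vec L (x i)) := ⟨_, rfl⟩
  have hdim : finrank (AlgebraicClosure K) W = J + 1 := by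
    rw [hW, finrank_span_eq_card (vec_indep L x hx), Fintype.card_fin]
  have hcardA : Fintype.card (L →ₐ[K] AlgebraicClosure K) = n := by rw [AlgHom.card, hfin]
  have hpow := sep_pow W J (fun I hI i0 hi0 => sep W J hdim
    (fun I hI v hv h0 => no_vanish L hS x hx I hI v (hW ▸ hv) h0) I hI i0 hi0) c
  have htop : W ^ c = ⊤ := by
    refine pow_top W c fun i0 => ?_
    obtain ⟨v, hv, h1, h2⟩ := hpow (Finset.univ.erase i0) (by
      rw [Finset.card_erase_of_mem (Finset.mem_univ i0), Finset.card_univ, hcardA]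
      omega) i0 (Finset.notMem_erase i0 _)
    exact ⟨v, hv, fun i hi => h1 i (Finset.mem_erase.2 ⟨hi, Finset.mem_univ i⟩), h2⟩
  have h3 : W ^ c = Submodule.span (AlgebraicClosure K) (vec L '' ((Set.range x) ^ c)) := by
    rw [hW, Submodule.span_pow]
    congr 1
    rw [Set.image_pow, ← Set.range_comp]
    rfl
  obtain ⟨b, hb1, hb2, hb3⟩ := exists_linearIndependent K ((Set.range x) ^ c)
  have hbfin : b.Finite := hb3.setFinite
  let _ : Fintype b := hbfin.fintype
  have h4 : Submodule.span (AlgebraicClosure K) (vec L '' b) = ⊤ := by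
    rw [eq_top_iff, ← htop, h3, Submodule.span_le]
    rintro _ ⟨y, hy, rfl⟩
    have h5 : y ∈ Submodule.span K b := by
      rw [hb2]
      exact Submodule.subset_span hy
    have h6 : vec L y ∈ Submodule.span K (vec L '' b) := by
      have := Submodule.mem_map_of_mem (f := (vec L).toLinearMap) h5
      rw [Submodule.map_span] at this
      exact this
    exact Submodule.span_subset_span K (AlgebraicClosure K) _ h6
  have hcard : Fintype.card b = finrank K L := by
    refine le_antisymm hb3.fintype_card_le_finrank ?_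
    rw [hfin]
    have h5 : finrank (AlgebraicClosure K) ((L →ₐ[K] AlgebraicClosure K) → (AlgebraicClosure K)) = n := by
      rw [Module.finrank_fintype_fun_eq_card, hcardA]
    have h6 : finrank (AlgebraicClosure K) (Submodule.span (AlgebraicClosure K) (vec L '' b)) = n := by
      rw [h4, finrank_top, h5]
    rw [← h6]
    have h7 : (vec L '' b) = Set.range (fun y : b => vec L (y : L)) := by
      rw [Set.image_eq_range]
    rw [h7]
    exact finrank_range_le_card _
  have hne : Nonempty b := by
    rw [← Fintype.card_pos_iff, hcard, hfin]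
    omega
  let B := basisOfLinearIndependentOfCardEqFinrank hb3 hcard
  have hB : ∀ i, B i = (i : L) := fun i => by
    simp [B]
  have h8 := db_of_basis L B (fun i => by
    rw [hB]; exact (pow_small L _ T hxs c _ (hb1 i.2)).1) H (T ^ c) (by linarith) hH (fun i => by
    rw [hB]; exact (pow_small L _ T hxs c _ (hb1 i.2)).2)
  rw [hcard, hfin] at h8
  have h9 : (Nat.factorial (finrank ℚ K * n) : ℝ) * (H * T ^ c) ^ (finrank ℚ K * n) =
      (Nat.factorial (finrank ℚ K * n) : ℝ) * H ^ (finrank ℚ K * n) *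
        T ^ (finrank ℚ K * (n * c)) := by
    rw [mul_pow, ← pow_mul]
    ring
  rw [h9] at h8
  exact h8

end Pool.Agent.D0H15.SK
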