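import Pool.Agent.D0H15.SK.Stm

/-!
# Project SFK: fields over an intermediate field
-/

set_option autoImplicit false
set_option linter.all false

open Polynomial NumberField

namespace Pool.Agent.D0H15.SK

/-- there is an extension of every degree -/
theorem exists_degree (K : Type) [Field K] [NumberField K] (m : ℕ) (hm : 1 ≤ m) :
    ∃ M : IntermediateField K (AlgebraicClosure K), Module.finrank K M = m := by
  obtain ⟨P, hP0, hPm⟩ : ∃ P : Ideal (𝓞 K), P ≠ ⊥ ∧ P.IsMaximal := by
    obtain ⟨P, hP⟩ := Ideal.exists_maximal (𝓞 K)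
    exact ⟨P, Ring.ne_bot_of_isMaximal_of_not_isField hP (RingOfIntegers.not_isField K), hP⟩
  have hPp : P.IsPrime := hPm.isPrime
  obtain ⟨π, hπ1, hπ2⟩ : ∃ π ∈ P, π ∉ P ^ 2 := by
    by_contra hcon
    push Not at hcon
    have h1 : P ≤ P ^ 2 := hcon
    have h2 : P ^ 2 < P := by
      have := Ideal.pow_succ_lt_pow hP0 1
      simpa using this
    exact absurd h1 (not_le_of_gt h2)
  let f : (𝓞 K)[X] := X ^ m - C π
  have hfm : f.Monic := monic_X_pow_sub_C π (by omega)
  have hfd : f.natDegree = m := natDegree_X_pow_sub_C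
  have hfd2 : f.degree = m := by
    rw [degree_eq_natDegree hfm.ne_zero, hfd]
  have hirr : Irreducible f := by
    refine irreducible_of_eisenstein_criterion hPp ?_ ?_ ?_ ?_ hfm.isPrimitive
    · rw [hfm.leadingCoeff]
      exact fun h => hPp.ne_top ((Ideal.eq_top_iff_one P).2 h)
    · intro j hj
      rw [hfd2] at hj
      have hj' : j < m := by exact_mod_cast hj
      show (X ^ m - C π : (𝓞 K)[X]).coeff j ∈ P
      rw [coeff_sub, coeff_X_pow, coeff_C, if_neg (by omega)]
      split_ifs
      · rw [zero_sub]
        exact P.neg_mem hπ1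
      · simp
    · rw [hfd2]
      exact_mod_cast hm
    · show (X ^ m - C π : (𝓞 K)[X]).coeff 0 ∉ P ^ 2
      rw [coeff_sub, coeff_X_pow, coeff_C, if_neg (by omega), if_pos rfl, zero_sub]
      intro h
      exact hπ2 ((P ^ 2).neg_mem_iff.1 h)
  have hirrK : Irreducible (f.map (algebraMap (𝓞 K) K)) :=
    (hfm.irreducible_iff_irreducible_map_fraction_map (K := K)).1 hirr
  obtain ⟨z, hz⟩ := IsAlgClosed.exists_aeval_eq_zero (k := AlgebraicClosure K) (R := K)
    (f.map (algebraMap (𝓞 K) K)) (by
      rw [hfm.degree_map, hfd2]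
      exact_mod_cast (by omega : m ≠ 0))
  have hmp : minpoly K z = f.map (algebraMap (𝓞 K) K) :=
    (minpoly.eq_of_irreducible_of_monic hirrK hz (hfm.map _)).symm
  have hint : IsIntegral K z := ⟨f.map (algebraMap (𝓞 K) K), hfm.map _, hz⟩
  refine ⟨IntermediateField.adjoin K {z}, ?_⟩
  rw [IntermediateField.adjoin.finrank hint, hmp, hfm.natDegree_map, hfd]

/-- The extensions of an intermediate field, as extensions of `K`. -/
theorem flds_up (K : Type) [Field K] [NumberField K]
    (M : IntermediateField K (AlgebraicClosure K)) [NumberField M] :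
    ∃ F : IntermediateField M (AlgebraicClosure M) → IntermediateField K (AlgebraicClosure K),
      Function.Injective F ∧ ∀ (n : ℕ) (X : ℝ) (L : IntermediateField M (AlgebraicClosure M)),
        L ∈ Flds M n X → F L ∈ Flds K (Module.finrank K M * n) X := by
  have : Algebra.IsAlgebraic M (AlgebraicClosure K) := Algebra.IsAlgebraic.tower_top (K := K) M
  have : IsAlgClosure M (AlgebraicClosure K) := ⟨inferInstance, inferInstance⟩
  obtain ⟨e⟩ : Nonempty (AlgebraicClosure M ≃ₐ[M] AlgebraicClosure K) :=
    ⟨IsAlgClosure.equiv M (AlgebraicClosure M) (AlgebraicClosure K)⟩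
  have hinj : Function.Injective (fun L : IntermediateField M (AlgebraicClosure M) =>
      (L.map e.toAlgHom).restrictScalars K) := fun L L' h =>
    IntermediateField.map_injective _ (IntermediateField.restrictScalars_injective K h)
  refine ⟨fun L => (L.map e.toAlgHom).restrictScalars K, hinj, ?_⟩
  rintro n X L ⟨h1, hN, h3⟩
  have eL : L ≃+* (L.map e.toAlgHom).restrictScalars K :=
    { toFun := fun x => ⟨e x.1, x.1, x.2, rfl⟩
      invFun := fun y => ⟨e.symm y.1, by
        obtain ⟨x, hx, hxy⟩ := y.2
        have : e.symm y.1 = x := by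
          rw [← hxy]
          exact e.symm_apply_apply x
        rw [this]
        exact hx⟩
      left_inv := fun x => Subtype.ext (e.symm_apply_apply x.1)
      right_inv := fun y => Subtype.ext (e.apply_symm_apply y.1)
      map_mul' := fun x y => Subtype.ext (map_mul e x.1 y.1)
      map_add' := fun x y => Subtype.ext (map_add e x.1 y.1) }
  have h4 : NumberField ((L.map e.toAlgHom).restrictScalars K) := NumberField.of_ringEquiv _ _ eL
  refine ⟨?_, h4, ?_⟩
  · have e1 : Module.finrank M (L.map e.toAlgHom) = n := by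
      rw [← h1]
      exact (IntermediateField.intermediateFieldMap e L).toLinearEquiv.finrank_eq.symm
    have e2 : Module.finrank K ((L.map e.toAlgHom).restrictScalars K) =
        Module.finrank K (L.map e.toAlgHom) := rfl
    rw [e2, ← e1, Module.finrank_mul_finrank]
  · rw [← NumberField.discr_eq_discr_of_ringEquiv L eL]
    exact h3

end Pool.Agent.D0H15.SK
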