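import Pool.Agent.D0H15.SK.Cas
import Pool.Agent.D0H15.SF.Smf

/-!
# Project SFK, module SMF (adapted from `Pool.Agent.D0H15.SF.Smf`)
-/

set_option autoImplicit false
set_option linter.all false

open Polynomial NumberField Module IntermediateField

namespace Pool.Agent.D0H15.SK

section

variable {K : Type} [Field K] [NumberField K]

theorem normKb : Normal K (AlgebraicClosure K) where
  toIsAlgebraic := AlgebraicClosure.isAlgebraic K
  splits' := fun _ => IsAlgClosed.splits _

/-- an element fixed by all automorphisms is in `K` -/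
theorem rat_of_fix (θ : (AlgebraicClosure K))
    (h : ∀ σ : AlgebraicClosure K ≃ₐ[K] AlgebraicClosure K, σ θ = θ) :
    θ ∈ Set.range (algebraMap K (AlgebraicClosure K)) := by
  have hno : Normal K (AlgebraicClosure K) := normKb
  by_contra hcon
  have h1 : θ ∉ (⊥ : Subalgebra K (AlgebraicClosure K)) := by
    rw [Algebra.mem_bot]
    exact hcon
  rw [notMem_iff_exists_ne_and_isConjRoot (Algebra.IsSeparable.isSeparable K θ)
    (IsAlgClosed.splits _)] at h1
  obtain ⟨y, hy, hc⟩ := h1
  obtain ⟨σ, hσ⟩ := isConjRoot_iff_exists_algEquiv.1 hc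
  exact hy (σ.injective (by rw [hσ, h σ])).symm

/-- a field with the full symmetric group is generated by each of its elements outside `K` -/
theorem gen (L : IntermediateField K (AlgebraicClosure K)) [FiniteDimensional K L] (hS : Sym L)
    (θ : AlgebraicClosure K)
    (hL : θ ∈ L) (hθ : θ ∉ Set.range (algebraMap K (AlgebraicClosure K))) : L = K⟮θ⟯ := by
  classical
  obtain ⟨v0, hv0⟩ : ∃ v0 : L →ₐ[K] AlgebraicClosure K, ∀ z : L, v0 z = (z : AlgebraicClosure K) :=
    ⟨L.val, fun _ => rfl⟩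
  have htop : K⟮(⟨θ, hL⟩ : L)⟯ = ⊤ := by
    refine (Field.primitive_element_iff_algHom_eq_of_eval K (AlgebraicClosure K)
      (fun x => IsAlgClosed.splits _)
      (⟨θ, hL⟩ : L) v0).2 ?_
    intro ψ hψ
    by_contra hne
    refine hθ (rat_of_fix θ fun σ0 => ?_)
    have key : ∀ φ3 : L →ₐ[K] AlgebraicClosure K, φ3 ⟨θ, hL⟩ = θ := by
      intro φ3
      by_cases h3 : φ3 = v0
      · rw [h3, hv0]
      · obtain ⟨σ, hσ⟩ := hS (Equiv.swap ψ φ3)
        have h4 := hσ v0
        rw [Equiv.swap_apply_of_ne_of_ne hne (fun h => h3 h.symm)] at h4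
        have h5 := hσ ψ
        rw [Equiv.swap_apply_left] at h5
        have h6 : v0 ⟨θ, hL⟩ = σ (v0 ⟨θ, hL⟩) := by
          conv_lhs => rw [h4]
          rfl
        have h7 : φ3 ⟨θ, hL⟩ = σ (ψ ⟨θ, hL⟩) := by
          rw [h5]
          rfl
        rw [h7, ← hψ, ← h6, hv0]
    have h8 := key (σ0.toAlgHom.comp v0)
    have h9 : (σ0.toAlgHom.comp v0) ⟨θ, hL⟩ = σ0 (v0 ⟨θ, hL⟩) := rfl
    rw [h9, hv0] at h8
    exact h8
  refine le_antisymm ?_ (adjoin_simple_le_iff.2 hL)
  intro y hy
  have h1 : (⟨y, hy⟩ : L) ∈ K⟮(⟨θ, hL⟩ : L)⟯ := by rw [htop]; exact mem_top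
  have h2 : ∀ z : L, z ∈ K⟮(⟨θ, hL⟩ : L)⟯ → (z : AlgebraicClosure K) ∈ K⟮θ⟯ := by
    intro z hz
    refine adjoin_induction (E := L) (s := {(⟨θ, hL⟩ : L)}) K
      (p := fun z _ => (z : AlgebraicClosure K) ∈ K⟮θ⟯)
      ?_ ?_ ?_ ?_ ?_ hz
    · intro x hx
      rw [Set.mem_singleton_iff] at hx
      subst hx
      exact mem_adjoin_simple_self K θ
    · intro x
      exact (K⟮θ⟯).algebraMap_mem x
    · intro x y _ _ hx hy
      exact (K⟮θ⟯).add_mem hx hy
    · intro x _ hx
      exact (K⟮θ⟯).inv_mem hx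
    · intro x y _ _ hx hy
      exact (K⟮θ⟯).mul_mem hx hy
  exact h2 _ h1

theorem integral_O {θ : AlgebraicClosure K} (hint : IsIntegral ℤ θ) : IsIntegral (𝓞 K) θ :=
  hint.tower_top

theorem minpoly_map {θ : AlgebraicClosure K} (hint : IsIntegral ℤ θ) :
    minpoly K θ = (minpoly (𝓞 K) θ).map (algebraMap (𝓞 K) K) :=
  minpoly.isIntegrallyClosed_eq_field_fractions' K (integral_O hint)

/-- an embedding of `K` extends to the algebraic closure -/
theorem ext_K (φ : K →+* ℂ) :
    ∃ Φ : AlgebraicClosure K →+* ℂ, ∀ x : K, Φ (algebraMap K (AlgebraicClosure K) x) = φ x := by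
  let _ : Algebra K ℂ := φ.toAlgebra
  have h0 : Algebra.IsAlgebraic K (AlgebraicClosure K) := AlgebraicClosure.isAlgebraic K
  let Φ : AlgebraicClosure K →ₐ[K] ℂ := IsAlgClosed.lift
  exact ⟨Φ.toRingHom, fun x => Φ.commutes x⟩

/-- the coefficients of the minimal polynomial of a small integer -/
theorem coeff_bd (θ : AlgebraicClosure K) (hint : IsIntegral ℤ θ) (l : ℝ) (hl : Siz θ l) (i : ℕ) :
    Ht ((minpoly (𝓞 K) θ).coeff i)
      (l ^ ((minpoly (𝓞 K) θ).natDegree - i) * ((minpoly (𝓞 K) θ).natDegree.choose i : ℝ)) := by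
  intro φ
  have hno : Normal K (AlgebraicClosure K) := normKb
  have hintO := integral_O hint
  have hintK : IsIntegral K θ := hint.tower_top
  have hdeg : (minpoly K θ).natDegree = (minpoly (𝓞 K) θ).natDegree := by
    rw [minpoly_map hint]
    exact (minpoly.monic hintO).natDegree_map _
  obtain ⟨Φ, hΦ⟩ := ext_K φ
  have h1 := coeff_le_of_roots_le (p := minpoly K θ) (f := φ) (B := l) i
    (minpoly.monic hintK) (IsAlgClosed.splits _) (by
      intro z hz
      have h2 : (minpoly K θ).map φ =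
          ((minpoly K θ).map (algebraMap K (AlgebraicClosure K))).map Φ := by
        rw [Polynomial.map_map]
        congr 1
        ext x
        exact (hΦ x).symm
      rw [h2, (IsAlgClosed.splits ((minpoly K θ).map
        (algebraMap K (AlgebraicClosure K)))).roots_map,
        Multiset.mem_map] at hz
      obtain ⟨β, hβ, rfl⟩ := hz
      have h3 : aeval β (minpoly K θ) = 0 := by
        have := (mem_roots'.1 hβ).2
        rwa [IsRoot.def, eval_map_algebraMap] at this
      have h4 : IsConjRoot K θ β := (isConjRoot_iff_aeval_eq_zero hintK).2 h3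
      obtain ⟨σ, hσ⟩ := isConjRoot_iff_exists_algEquiv.1 h4
      have h5 := hl (Φ.comp (σ.symm.toAlgHom : AlgebraicClosure K →+* AlgebraicClosure K))
      have h6 : (Φ.comp (σ.symm.toAlgHom : AlgebraicClosure K →+* AlgebraicClosure K)) θ = Φ β := by
        rw [← hσ]
        simp
      rw [h6] at h5
      exact h5)
  rw [hdeg, coeff_map, minpoly_map hint, coeff_map] at h1
  exact h1

open Classical in
/-- the fields generated by a root of the polynomial with coefficients `a` -/
noncomputable def flds (n : ℕ) (a : Fin n → 𝓞 K) :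
    Finset (IntermediateField K (AlgebraicClosure K)) :=
  (((X ^ n + ∑ i : Fin n, C (a i) * X ^ (i : ℕ) : (𝓞 K)[X]).map
    (algebraMap (𝓞 K) (AlgebraicClosure K))).roots.toFinset).image (fun θ => K⟮θ⟯)

theorem card_flds (n : ℕ) (a : Fin n → 𝓞 K) : (flds n a).card ≤ n := by
  classical
  unfold flds
  refine Finset.card_image_le.trans ((Multiset.toFinset_card_le _).trans
    ((Polynomial.card_roots' _).trans (Polynomial.natDegree_map_le.trans ?_)))
  refine Polynomial.natDegree_add_le_of_degree_le (Polynomial.natDegree_X_pow_le n) ?_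
  refine Polynomial.natDegree_sum_le_of_forall_le _ _ ?_
  intro i _
  exact (Polynomial.natDegree_C_mul_X_pow_le _ _).trans i.2.le

end

theorem smf_of (hCNT : S_CNT) : S_SMF := by
  classical
  intro K _ _ n hn
  obtain ⟨c, C', hc, hC, hbox⟩ := hCNT K
  obtain ⟨d, hd⟩ : ∃ d : ℕ, d = Module.finrank ℚ K := ⟨_, rfl⟩
  simp only [← hd] at hbox ⊢
  refine ⟨n * ∏ i : Fin n, (C' * (n.choose i : ℝ) ^ d), ?_, ?_⟩
  · have h1 : (0 : ℝ) < n := by exact_mod_cast (by omega : 0 < n)
    refine mul_pos h1 (Finset.prod_pos fun i _ => ?_)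
    have h2 : (0 : ℝ) < (n.choose i : ℝ) := by exact_mod_cast Nat.choose_pos i.2.le
    positivity
  intro l hl
  have hB : ∀ i : Fin n, (1 : ℝ) ≤ l ^ (n - (i : ℕ)) * (n.choose i : ℝ) := by
    intro i
    have h1 : (1 : ℝ) ≤ l ^ (n - (i : ℕ)) := one_le_pow₀ hl
    have h2 : (1 : ℝ) ≤ (n.choose i : ℝ) := by
      exact_mod_cast Nat.choose_pos i.2.le
    nlinarith
  choose S hS1 hS2 hS3 using fun i : Fin n => hbox _ (hB i)
  obtain ⟨box, hboxd⟩ : ∃ box : Finset (Fin n → 𝓞 K), box = Fintype.piFinset S := ⟨_, rfl⟩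
  have hsub : {L : IntermediateField K (AlgebraicClosure K) | Module.finrank K L = n ∧ Sym L ∧
      ∃ θ ∈ L, IsIntegral ℤ θ ∧ θ ∉ Set.range (algebraMap K (AlgebraicClosure K)) ∧ Siz θ l} ⊆
      (box.biUnion (flds n) : Finset (IntermediateField K (AlgebraicClosure K))) := by
    rintro L ⟨hfin, hS, θ, hθL, hint, hirr, hsiz⟩
    have : FiniteDimensional K L := FiniteDimensional.of_finrank_pos (by omega)
    have hLθ := gen L hS θ hθL hirr
    have hintO := integral_O hint
    have hintK : IsIntegral K θ := hint.tower_top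
    have hdegK : (minpoly K θ).natDegree = n := by
      rw [← IntermediateField.adjoin.finrank hintK, ← hLθ]
      exact hfin
    have hdeg : (minpoly (𝓞 K) θ).natDegree = n := by
      rw [← hdegK, minpoly_map hint]
      exact ((minpoly.monic hintO).natDegree_map _).symm
    simp only [Finset.coe_biUnion, Set.mem_iUnion, Finset.mem_coe]
    refine ⟨fun i => (minpoly (𝓞 K) θ).coeff i, ?_, ?_⟩
    · rw [hboxd, Fintype.mem_piFinset]
      intro i
      rw [hS1]
      have h1 := coeff_bd θ hint l hsiz i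
      rw [hdeg] at h1
      exact h1
    · unfold flds
      rw [Finset.mem_image]
      refine ⟨θ, ?_, hLθ.symm⟩
      have hp : (X ^ n + ∑ i : Fin n, C ((minpoly (𝓞 K) θ).coeff i) * X ^ (i : ℕ) : (𝓞 K)[X]) =
          minpoly (𝓞 K) θ := by
        conv_rhs => rw [(minpoly.monic hintO).as_sum, hdeg]
        rw [Fin.sum_univ_eq_sum_range (fun i => C ((minpoly (𝓞 K) θ).coeff i) * X ^ i) n]
      rw [hp, Multiset.mem_toFinset, mem_roots', IsRoot.def, eval_map_algebraMap, minpoly.aeval]
      refine ⟨?_, rfl⟩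
      exact (Monic.map _ (minpoly.monic hintO)).ne_zero
  refine ⟨(Finset.finite_toSet _).subset hsub, ?_⟩
  have h1 := Set.ncard_le_ncard hsub (Finset.finite_toSet _)
  rw [Set.ncard_coe_finset] at h1
  have h2 : (box.biUnion (flds n)).card ≤ box.card * n :=
    Finset.card_biUnion_le_card_mul _ _ _ fun a _ => card_flds n a
  have h3 : (box.card : ℝ) ≤ (∏ i : Fin n, (C' * (n.choose i : ℝ) ^ d)) *
      l ^ (d * (n * (n + 1) / 2)) := by
    rw [hboxd, Fintype.card_piFinset, Nat.cast_prod, ← Pool.Agent.D0H15.SF.sum_sub,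
      Finset.mul_sum, ← Finset.prod_pow_eq_pow_sum, ← Finset.prod_mul_distrib]
    refine Finset.prod_le_prod (fun _ _ => Nat.cast_nonneg _) fun i _ => ?_
    refine (hS3 i).trans (le_of_eq ?_)
    rw [mul_pow, ← pow_mul, mul_comm (n - (i : ℕ)) d]
    ring
  calc _ ≤ ((box.card * n : ℕ) : ℝ) := by exact_mod_cast h1.trans h2
    _ = n * (box.card : ℝ) := by push_cast; ring
    _ ≤ n * ((∏ i : Fin n, (C' * (n.choose i : ℝ) ^ d)) * l ^ (d * (n * (n + 1) / 2))) :=
        mul_le_mul_of_nonneg_left h3 (Nat.cast_nonneg _)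
    _ = _ := by ring

end Pool.Agent.D0H15.SK
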