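import Pool.Agent.D0H15.SK.Ver
import Pool.Agent.D0H15.SK.Exp
import Pool.Agent.D0H15.SK.Smf
import Pool.Agent.D0H15.SK.Ext
import Pool.Agent.D0H25.SFK.CNT
import Pool.Agent.D0H25.SFK.APX
import Pool.Agent.D0H25.SFK.FAM
import Pool.Agent.D0H25.SFK.CO
import Pool.Agent.D0H25.SFK.PKF
import Pool.Agent.D0H65.SFK.PR
import Pool.Agent.D0H65.SFK.GM
import Pool.Agent.D0H42.SFK.SN

/-!
# Project SFK: assembly
-/

set_option autoImplicit false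
set_option linter.all false

open Polynomial NumberField

namespace Pool.Agent.D0H15.SK

theorem ver : S_VER :=
  t_VER (Pool.Agent.D0H25.SFK.FAM.t_FAM Pool.Agent.D0H25.SFK.t_CNT Pool.Agent.D0H65.SFK.t_PR
      (Pool.Agent.D0H65.SFK.GM.t_GM Pool.Agent.D0H25.SFK.t_CNT)
      (Pool.Agent.D0H25.SFK.CO.t_CO Pool.Agent.D0H25.SFK.t_CNT Pool.Agent.D0H25.SFK.t_APX))
    Pool.Agent.D0H42.SFK.t_SN Pool.Agent.D0H65.SFK.t_IDX t_CAS Pool.Agent.D0H25.SFK.t_PKF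
    Pool.Agent.D0H25.SFK.t_ONE (smf_of Pool.Agent.D0H25.SFK.t_CNT)

/-- the number of extensions with group `S_n` -/
theorem sym : ∃ n₀ : ℕ, ∀ n : ℕ, n₀ ≤ n →
    ∀ (K : Type) [Field K] [NumberField K], ∃ X₀ : ℝ, ∀ X : ℝ, X₀ ≤ X →
    (SymF K n X).Finite ∧
    X ^ ((1 : ℝ) / 2 + 4 / (3 * n) - 16 * (Real.log n) ^ 2 / (n : ℝ) ^ 2) ≤
      ((SymF K n X).ncard : ℝ) := exp_of_ver ver

/-- both results -/
theorem final : ∃ n₀ : ℕ, ∀ n : ℕ, n₀ ≤ n → ∀ (K : Type) [Field K] [NumberField K],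
    (∃ X₀ : ℝ, ∀ X : ℝ, X₀ ≤ X → (SymF K n X).Finite ∧
      X ^ ((1 : ℝ) / 2 + 4 / (3 * n) - 16 * (Real.log n) ^ 2 / (n : ℝ) ^ 2) ≤
        ((SymF K n X).ncard : ℝ)) ∧
    ∀ m : ℕ, 1 ≤ m → ∃ X₀ : ℝ, ∀ X : ℝ, X₀ ≤ X → (Flds K (m * n) X).Finite ∧
      X ^ ((1 : ℝ) / 2 + 4 / (3 * n) - 16 * (Real.log n) ^ 2 / (n : ℝ) ^ 2) ≤
        ((Flds K (m * n) X).ncard : ℝ) := by
  obtain ⟨n₀, h⟩ := sym
  obtain ⟨e, -, he⟩ := Pool.Agent.Results.MP_bf81c2_nt.LinnikExponent.result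
  refine ⟨max n₀ 2, fun n hn K _ _ => ⟨h n (le_trans (le_max_left _ _) hn) K, fun m hm => ?_⟩⟩
  have hn0 : n₀ ≤ n := le_trans (le_max_left _ _) hn
  have hn2 : 2 ≤ n := le_trans (le_max_right _ _) hn
  obtain ⟨M, hM⟩ := exists_degree K m hm
  have : FiniteDimensional K M := FiniteDimensional.of_finrank_pos (by omega)
  have : FiniteDimensional ℚ M := FiniteDimensional.trans ℚ K M
  have : NumberField M := {}
  obtain ⟨X₀, hX⟩ := h n hn0 M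
  obtain ⟨F, hF1, hF2⟩ := flds_up K M
  obtain ⟨C, hC⟩ := he (m * n) (by nlinarith) (Module.finrank ℚ K)
  refine ⟨max X₀ 1, fun X hX0 => ?_⟩
  have hfin : (Flds K (m * n) X).Finite := (hC K rfl X (le_trans (le_max_right _ _) hX0)).1
  obtain ⟨h1, h2⟩ := hX X (le_trans (le_max_left _ _) hX0)
  refine ⟨hfin, h2.trans ?_⟩
  have h3 : F '' (SymF M n X) ⊆ Flds K (m * n) X := by
    rintro _ ⟨L, hL, rfl⟩
    rw [← hM]
    exact hF2 n X L ⟨hL.1, hL.2.1⟩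
  rw [← Set.ncard_image_of_injective _ hF1]
  exact_mod_cast Set.ncard_le_ncard h3 hfin

end Pool.Agent.D0H15.SK
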