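import Mathlib
import Pool.Agent.D0H41.SF.Stm

/-!
# Project SK: many `S_n`-extensions of degree `n` of an arbitrary number field `K`

The relative version of project SF (helper41, `Pool.Agent.D0H41.SF.Stm`).  `d = [K : ℚ]`,
`Kb = AlgebraicClosure K`.

THEOREM. There are `C, n₀` such that for all `n ≥ n₀` and ALL number fields `K` the number of `L / K`
in `Kb` with `[L : K] = n`, Galois group `S_n`, `|disc L| ≤ X` is at least
`X ^ (1/2 + 4/(3n) - C (log n)^2 / n^2)` for `X ≥ X₀(n, K)`.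

All modules below are relative versions of the modules of SF; for most of them the file of SF can be
copied and adapted.  Proofs are in the docstrings.  Prove `theorem t_XXX : S_XXX` (or `S_YYY → S_XXX` where
it is written) in `Pool/Agent/D0H<your number>/SK/XXX.lean`.
-/

set_option autoImplicit false

open Polynomial NumberField

namespace Pool.Agent.D0H15.SK

section Defs

variable {K : Type} [Field K] [NumberField K]

/-- All conjugates of `θ` have absolute value at most `T`. -/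
def Siz (θ : AlgebraicClosure K) (T : ℝ) : Prop := ∀ φ : AlgebraicClosure K →+* ℂ, ‖φ θ‖ ≤ T

/-- Some conjugate of `θ` has absolute value at least `l`. -/
def Lrg (θ : AlgebraicClosure K) (l : ℝ) : Prop := ∃ φ : AlgebraicClosure K →+* ℂ, l ≤ ‖φ θ‖

/-- All conjugates of the integer `a` of `K` have absolute value at most `B`. -/
def Ht (a : 𝓞 K) (B : ℝ) : Prop := ∀ φ : K →+* ℂ, ‖φ (a : K)‖ ≤ B

/-- The Galois group acts on the set of embeddings of `L` as the full symmetric group. -/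
def Sym (L : IntermediateField K (AlgebraicClosure K)) : Prop :=
  ∀ τ : Equiv.Perm (L →ₐ[K] AlgebraicClosure K),
    ∃ σ : AlgebraicClosure K ≃ₐ[K] AlgebraicClosure K,
      ∀ φ : L →ₐ[K] AlgebraicClosure K, τ φ = σ.toAlgHom.comp φ

/-- The absolute value of the (absolute) discriminant of `L` is at most `X`. -/
def DB (L : IntermediateField K (AlgebraicClosure K)) (X : ℝ) : Prop :=
  ∃ h : NumberField L, ((|@NumberField.discr L _ h| : ℤ) : ℝ) ≤ X

/-- The polynomial `X^n + a_{n-2} X^{n-2} + ... + a_0` over the ring of integers. -/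
noncomputable def pol (n : ℕ) (a : Fin (n - 1) → 𝓞 K) : (𝓞 K)[X] :=
  X ^ n + ∑ i : Fin (n - 1), C (a i) * X ^ (i : ℕ)

/-- the polynomial over `K` -/
noncomputable def polK (n : ℕ) (a : Fin (n - 1) → 𝓞 K) : K[X] :=
  (pol n a).map (algebraMap (𝓞 K) K)

/-- the value `∑ b_i m^i` -/
noncomputable def ev {D : ℕ} (b : Fin D → 𝓞 K) (m : 𝓞 K) : 𝓞 K := ∑ i : Fin D, b i * m ^ (i : ℕ)

/-- the value of the derivative, `∑ i b_i m^(i-1)` -/
noncomputable def dv {D : ℕ} (b : Fin D → 𝓞 K) (m : 𝓞 K) : 𝓞 K :=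
  ∑ i : Fin D, ((i : ℕ) : 𝓞 K) * b i * m ^ ((i : ℕ) - 1)

/-- There are `k` polynomials of degree `< k`, linearly independent over `K`, which vanish at `m` modulo
the ideal `R` and are short (all conjugates of the coefficient of `x^j` are at most `C V^(n-2j)`). -/
def Short (k n V : ℕ) (R : Ideal (𝓞 K)) (C : ℝ) (m : 𝓞 K) : Prop :=
  ∃ g : Fin k → Fin k → 𝓞 K, LinearIndependent K (fun i j => ((g i j : 𝓞 K) : K)) ∧
    (∀ i, ev (g i) m ∈ R) ∧
    ∀ i j, Ht (g i j) (C * (V : ℝ) ^ (n - 2 * (j : ℕ)))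

/-- the properties of the polynomials in the family -/
structure Good (n k V q : ℕ) (a0 : Fin (n - 1) → 𝓞 K) (C : ℝ) (a : Fin (n - 1) → 𝓞 K) : Prop where
  size : ∀ i, Ht (a i) (C * (V : ℝ) ^ (2 * (n - (i : ℕ))))
  cong : ∀ i, (q : 𝓞 K) ∣ a i - a0 i
  index : ∃ (R : Ideal (𝓞 K)) (m : 𝓞 K), (Ideal.absNorm R).Prime ∧
    V ^ (Module.finrank ℚ K * (k * (n + 1 - k))) < Ideal.absNorm R ∧
    (pol n a).eval m ∈ R ^ 2 ∧ (derivative (pol n a)).eval m ∈ R

end Defs

/-- the extensions of `K` of degree `n` with `|disc| ≤ X` -/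
def Flds (K : Type) [Field K] [NumberField K] (n : ℕ) (X : ℝ) :
    Set (IntermediateField K (AlgebraicClosure K)) := {L | Module.finrank K L = n ∧ DB L X}

/-- The extensions `L` of `K` of degree `n` with Galois group `S_n` and `|disc L| ≤ X`. -/
def SymF (K : Type) [Field K] [NumberField K] (n : ℕ) (X : ℝ) :
    Set (IntermediateField K (AlgebraicClosure K)) :=
  {L | Module.finrank K L = n ∧ DB L X ∧ Sym L}

/-! ### Lattice points in `𝓞 K` -/

/-- CNT. The number of integers of `K` all of whose conjugates are at most `B` has order of magnitude `B ^ d`.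

PROOF. Finite: `NumberField.Embeddings.finite_of_norm_le`.  Lower bound: `ω = NumberField.integralBasis K`
(or `RingOfIntegers.basis`), `H = max 1 (max of all ‖φ ω_i‖)`; the elements `∑ c_i ω_i` with integers
`0 ≤ c_i ≤ B / (d H)` are different and have `‖φ ·‖ ≤ B`; there are at least `(B / (d H)) ^ d` of them
(`⌊x⌋ + 1 ≥ x`).  Upper bound: packing, `S_PAK` of SF (`Pool.Agent.D0H87.SF.PAK`: `t_PAK`), in
`E = (K →+* ℂ) → ℂ` (sup norm): the map `a ↦ (φ a)_φ` is injective, the real span of the image of `𝓞 K` is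
spanned by the images of the `ω_i`, so its dimension is at most `d`; two different elements of `𝓞 K` have
distance at least `1` (the norm of the difference is a nonzero integer and is the product of its
conjugates: `Algebra.norm_eq_prod_embeddings`; compare `Pool.Agent.D0H52.SF.One`).  So the number is at most
`(1 + 2 B) ^ d ≤ (3 B) ^ d`. -/
def S_CNT : Prop := ∀ (K : Type) [Field K] [NumberField K], ∃ c C : ℝ, 0 < c ∧ 0 < C ∧
  ∀ B : ℝ, 1 ≤ B → ∃ S : Finset (𝓞 K), (∀ a, a ∈ S ↔ Ht a B) ∧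
    c * B ^ (Module.finrank ℚ K) ≤ (S.card : ℝ) ∧ (S.card : ℝ) ≤ C * B ^ (Module.finrank ℚ K)

/-- APX. Every element of `K` is near an integer, at all infinite places.

PROOF. Write it in an integral basis with rational coordinates and take the integer parts; `H = d * max ‖φ ω_i‖ + 1`. -/
def S_APX : Prop := ∀ (K : Type) [Field K] [NumberField K], ∃ H : ℝ, 0 < H ∧
  ∀ x : K, ∃ y : 𝓞 K, ∀ φ : K →+* ℂ, ‖φ (x - (y : K))‖ ≤ H

/-- PR. Many prime ideals of degree one.

PROOF. The prime ideal theorem of the library (`Pool.Agent.H484R2.pit : PIT`, which says that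
`∑_{p ≤ N} #(𝓞 K →+* ZMod p) / π(N) → 1`; see also `Pool.Agent.N842.TX.Pit`), the bound
`#(𝓞 K →+* ZMod p) ≤ d` (a homomorphism is determined by the image of a primitive element for all but
finitely many `p`; or: different homomorphisms have different kernels, which are primes over `p`, and there are at
most `d` of these; a lemma of this kind is surely near the place where PIT is used), Chebyshev
(`Pool.Agent.D0H87.SF.PR` has the number of primes in `(V^e, 4 V^e]`; one needs `π(4N) (1 - ε) - π(N) (1 + ε) ≥ c N / log N`).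
If `f : 𝓞 K →+* ZMod p` with `p` prime, then `R = ker f` is an ideal with `absNorm R = p`.
So at least `c N / (d log N)` primes `p` in `(N, 4N]`, `N = V^e`, give such an ideal; `log (V^e) = o(V)`. -/
def S_PR : Prop := ∀ (K : Type) [Field K] [NumberField K] (e : ℕ), 1 ≤ e → ∃ V₀ : ℕ, ∀ V ≥ V₀,
  ∃ P : Finset (Ideal (𝓞 K)), V ^ (e - 1) ≤ P.card ∧ ∀ R ∈ P, (Ideal.absNorm R).Prime ∧
    V ^ e < Ideal.absNorm R ∧ Ideal.absNorm R ≤ 4 * V ^ e

/-- GM (prove `S_CNT → S_GM`; PAK may be cited).  For at least half of the `m` modulo `R` (`R` a prime ideal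
of degree one and norm `r` of order `V ^ e`, `e = d k (n + 1 - k)`) there are `k` independent short
polynomials.

PROOF (compare `Pool.Agent.D0H87.SF.GM`).  `R` is a maximal ideal (`Ideal.isPrime_of_irreducible_absNorm`), the residue
field has `r` elements, so the classes of `0, 1, .., r-1` are all the classes (`r ∈ R`, `Ideal.absNorm_mem`; and
`(m : 𝓞 K) ∈ R ↔ r ∣ m`).  (1) `β > 0` small, `V ≥ 1 / β`: the number of the `g : Fin k → 𝓞 K` with
`Ht (g j) (β V^(n-2j))` is at most `∏ C (β V^(n-2j))^d = C^k β^(dk) V^e` by CNT (`∑_{j<k} (n-2j) = k(n+1-k)`).  If such a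
`g` is not `0`, say `g j ≠ 0`, then `g j ∉ R`: otherwise `r` divides the norm of `g j`, which is a nonzero integer of absolute value
at most `(β V^n)^d ≤ V^(dn) ≤ V^e < r` (`n ≤ k(n+1-k)`).  So `g` modulo `R` is a nonzero polynomial of degree `< k` and
`ev g m ∈ R` for at most `k-1` of the `m < r`.  So for at most `(k-1) C^k β^(dk) V^e ≤ r/2` of the `m < r` there is a
nonzero `g` in the small box with `ev g m ∈ R`.  `G` = all other `m`.  (2) Let `m ∈ G`, `A ≥ 1` large (depending on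
`β, k, K`).  The number of `g` with `Ht (g j) (A V^(n-2j))` is at least `c^k A^(dk) V^e`; by pigeonhole at least
`c^k A^(dk) / 4` of them have the same `ev g m` modulo `R`; their differences with a fixed one are a set `S` of
`≥ c^k A^(dk) / 4` elements of `Λ = {g : ev g m ∈ R}` with `Ht (g j) (2 A V^(n-2j))`.  Suppose the `K`-span of `S` has
`K`-dimension at most `k-1`; then its `ℚ`-dimension is at most `d(k-1) ≤ dk - 1`, and `S_PAK` in
`E = Fin k → (K →+* ℂ) → ℂ` (sup norm), `g ↦ (φ (g j) / V^(n-2j))_{j,φ}`, with norms `≤ 2A` and distances `≥ β` (difference of two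
elements of `S`: a nonzero element of `Λ`, so not in the small box) gives
`#S ≤ (1 + 4A/β)^(dk-1)`, a contradiction if `A` is large.  So the `K`-span is everything, and `S` contains `k` vectors
independent over `K`. -/
def S_GM : Prop := ∀ (K : Type) [Field K] [NumberField K] (n k : ℕ), 2 ≤ k → 2 * k ≤ n →
  ∃ C : ℝ, 0 < C ∧ ∃ V₀ : ℕ, ∀ (V : ℕ) (R : Ideal (𝓞 K)), V₀ ≤ V → (Ideal.absNorm R).Prime →
  V ^ (Module.finrank ℚ K * (k * (n + 1 - k))) < Ideal.absNorm R →
  Ideal.absNorm R ≤ 4 * V ^ (Module.finrank ℚ K * (k * (n + 1 - k))) →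
  ∃ G : Finset ℕ, G ⊆ Finset.range (Ideal.absNorm R) ∧ Ideal.absNorm R ≤ 2 * G.card ∧
    ∀ m ∈ G, Short k n V R C (m : 𝓞 K)

/-- CO (prove `S_CNT → S_APX → S_CO`).  The tails `b` of degree `≤ 2k-2` in a given class.

PROOF (compare `Pool.Agent.D0H87.SF.CO`).  `D = 2k-1`, `Λ = {b : Fin D → 𝓞 K : ev b m ∈ R^2, dv b m ∈ R}`.  The products
`g_i * g_j` are in `Λ`, `Ht (coefficient l) (k C₁^2 V^(2(n-l)))`, and span `Fin D → K` over `K`.
(i) every vector `x` over `𝓞 K` is congruent modulo `Λ` to one with `Ht (x_l) (k^3 H C₁^2 V^(2(n-l)))`: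
`x = ∑ c_{ij} g_i g_j` with `c_{ij} ∈ K`, subtract `∑ y_{ij} g_i g_j` with `y_{ij}` the integer near `c_{ij}` (APX).  (ii) the
vectors `b` with `Ht (b_l) (V^(2(n-l)))` are at least `c^D V^(d(4k-2)(n+1-k))` many (CNT); there are `r^3 ≤ 64 V^(3 d k (n+1-k))`
classes (`ev` modulo `R^2`, `dv` modulo `R`; `absNorm (R^2) = r^2`), so some class has a set `B₀` of at least
`(c^D / 64) V^(d(k-2)(n+1-k))` of them.  (iii) `x = (s - t m, t, 0, ..)` has `ev = s`, `dv = t`; take
`b₀ ∈ B₀`, `y ≡ x - b₀` as in (i), `B = y + B₀`. -/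
def S_CO : Prop := ∀ (K : Type) [Field K] [NumberField K] (n k : ℕ), 2 ≤ k → 2 * k ≤ n →
  ∀ C₁ : ℝ, 0 < C₁ → ∃ C c : ℝ, 0 < C ∧ 0 < c ∧
  ∀ (V : ℕ) (R : Ideal (𝓞 K)) (m : 𝓞 K), 1 ≤ V → (Ideal.absNorm R).Prime →
  Ideal.absNorm R ≤ 4 * V ^ (Module.finrank ℚ K * (k * (n + 1 - k))) → Short k n V R C₁ m →
  ∀ s t : 𝓞 K, ∃ B : Finset (Fin (2 * k - 1) → 𝓞 K),
    c * (V : ℝ) ^ (Module.finrank ℚ K * ((k - 2) * (n + 1 - k))) ≤ (B.card : ℝ) ∧
    ∀ b ∈ B, (∀ i, Ht (b i) (C * (V : ℝ) ^ (2 * (n - (i : ℕ))))) ∧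
      ev b m - s ∈ R ^ 2 ∧ dv b m - t ∈ R

/-- FAM (prove `S_CNT → S_PR → S_GM → S_CO → S_FAM`).  The family is large.

PROOF (compare the module FAM of SF).  `e = d k (n+1-k)`.  Quadruples `(R, m, top, b)`: `R` a prime ideal of norm `r ∈ (V^e, 4V^e]`
(`≥ V^(e-1)` of them, PR), `m ∈ G_R` (`≥ r/2 ≥ V^e/2`, GM), top coefficients `a_i = a0_i + q c_i`, `Ht (c_i) (V^(2(n-i)))`, for
`2k-1 ≤ i ≤ n-2` (`≥ c' V^(d((n-2k+1)(n-2k+2)-2))` of them, CNT), tail `a_i = a0_i + q b_i` (`i ≤ 2k-2`) where `b` is in the set of CO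
for `(s,t)` with `q s ≡ -(rest)` modulo `R^2`, `q t ≡ -(rest')` modulo `R` (`q` is invertible modulo `R^2` because the prime `r > q`
is the norm of `R`).  Then `(pol n a).eval m ∈ R^2`, `(derivative (pol n a)).eval m ∈ R`.  The number of quadruples is at least
`c'' V^(d(n^2+n-2-k(n+1-k)) - 1)`.  Each `a` comes from a bounded number of quadruples: `m` is a root of the monic `f` modulo
`R` (`≤ n` values of `m < r`), and `R` contains the resultant of `f` and `f'`, which is a nonzero element of `𝓞 K` (irreducible over `K`) whose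
norm is at most `V^const` in absolute value (crude bound), hence the product of the norms of these
primes `R` (each `> V^e ≥ V`) is at most `V^const`, so there are at most `const` of them.  `(top, b)` is determined by `a`.  So
`card A ≥ V^(d(n^2+n-2-k(n+1-k)) - 2)` for large `V`. -/
def S_FAM : Prop := ∀ (K : Type) [Field K] [NumberField K] (n k q : ℕ), 2 ≤ k → 2 * k ≤ n → 1 ≤ q →
  ∀ a0 : Fin (n - 1) → 𝓞 K,
  (∀ a : Fin (n - 1) → 𝓞 K, (∀ i, (q : 𝓞 K) ∣ a i - a0 i) → Irreducible (polK n a)) →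
  ∃ C : ℝ, 0 < C ∧ ∃ V₀ : ℕ, ∀ V ≥ V₀, ∃ A : Finset (Fin (n - 1) → 𝓞 K),
    V ^ (Module.finrank ℚ K * (n ^ 2 + n - 2 - k * (n + 1 - k)) - 2) ≤ A.card ∧
    ∀ a ∈ A, Good n k V q a0 C a

/-! ### Fields -/

/-- IDX.  The discriminant of the field.

PROOF (compare `Pool.Agent.D0H87.SF.IDX`).  `L = K(θ)`, `t = θ - m`, `f(x+m) = x^2 h(x) + A₁ x + A₀`, `A₁ = f'(m) ∈ R`, `A₀ = f(m) ∈ R^2`, `h` monic of
degree `n-2` over `𝓞 K`.  Let `c ∈ R⁻¹` (inverse fractional ideal), `c ∉ 𝓞 K`; then `c r ∈ 𝓞 K`, `c A₁ ∈ 𝓞 K`, `c^2 A₀ ∈ 𝓞 K`.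
`β = c t h(t)` satisfies `β^2 + (c A₁) β + (c^2 A₀) h(t) = 0`, so `β` is an algebraic integer.
Let `ω_a` be an integral basis of `K`.  The `x_{a,i} = ω_a θ^i` (`i < n`) are a `ℚ`-basis of `L` which consists of integers.  Let
`P` be the integral matrix which expresses them in an integral basis of `L`:
`Algebra.discr ℚ x = (det P)^2 * discr L` (`Algebra.discr_of_matrix_vecMul`).  The coordinates of `r β = (r c) θ^(n-1) + ...` with respect to the `x_{a,i}` are integers,
and not all of them are divisible by `r` (the part of `θ^(n-1)` is `r c`, and `c ∉ 𝓞 K`); call this vector `v`; `v P` are the coordinates of `r β` in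
the integral basis of `L`, so divisible by `r`, as `β` is an integer.  So `det P = 0` modulo the prime `r`, `r ∣ det P`, and `det P ≠ 0`:
`r^2 |disc L| ≤ |discr ℚ x| = |det (φ (x_{a,i}))|^2 ≤ ((dn)! ∏_{a,i} (H T^i))^2 = ((dn)! H^(dn) T^(d n(n-1)/2))^2`. -/
def S_IDX : Prop := ∀ (K : Type) [Field K] [NumberField K] (n : ℕ), 2 ≤ n → ∃ C : ℝ, 1 ≤ C ∧
  ∀ (a : Fin (n - 1) → 𝓞 K) (θ : AlgebraicClosure K) (R : Ideal (𝓞 K)) (m : 𝓞 K) (T : ℝ),
  1 ≤ T → Irreducible (polK n a) → aeval θ (polK n a) = 0 → (Ideal.absNorm R).Prime →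
  (pol n a).eval m ∈ R ^ 2 → (derivative (pol n a)).eval m ∈ R → Siz θ T →
  Module.finrank K (IntermediateField.adjoin K {θ}) = n ∧
  DB (IntermediateField.adjoin K {θ})
    ((C * T ^ (Module.finrank ℚ K * (n * (n - 1) / 2)) / (Ideal.absNorm R : ℝ)) ^ 2)

/-- ROOT (helper15). The roots are small. -/
def S_ROOT : Prop := ∀ (K : Type) [Field K] [NumberField K] (n : ℕ) (C : ℝ), 2 ≤ n → 0 < C →
  ∃ C' : ℝ, 1 ≤ C' ∧ ∀ (V : ℕ) (a : Fin (n - 1) → 𝓞 K), 1 ≤ V →
  (∀ i, Ht (a i) (C * (V : ℝ) ^ (2 * (n - (i : ℕ))))) →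
  ∀ θ : AlgebraicClosure K, aeval θ (polK n a) = 0 → Siz θ (C' * (V : ℝ) ^ 2)

/-- SN. A congruence condition which forces the Galois group `S_n`.

PROOF (compare `Pool.Agent.D0H42.SF`, and over number fields `N130/CF/IR2`, `N78/CF/TR2`, `N693/CF/SWP`, `N492/CF/INR`,
`N169/CF/FULL`).  Take three prime ideals `𝔭₁, 𝔭₂, 𝔭₃` of degree one over different large rational primes (for all but finitely many of them; for
`𝔭₁, 𝔭₂` any residue field is fine, so also for them degree one is not needed), `q = p₁ p₂ p₃²`.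
`a0` modulo `𝔭₁`: irreducible of degree `n` with trace zero; modulo `𝔭₂`: `(x - c) h`, `h` irreducible of degree
`n - 1`, trace zero; modulo `𝔭₃²`: `(x² - π)(x^(n-2) - 1)` with `π ∈ 𝔭₃`, `π ∉ 𝔭₃²` (`n ≥ 4`; for `n = 4` the factor `x² - 1`; the
`x^(n-1)`-coefficient is zero).  CRT.  Then: irreducible; doubly transitive; a transposition in an inertia group above `𝔭₃`. -/
def S_SN : Prop := ∀ (K : Type) [Field K] [NumberField K] (n : ℕ), 4 ≤ n → ∃ q : ℕ, 1 ≤ q ∧
  ∃ a0 : Fin (n - 1) → 𝓞 K, ∀ a : Fin (n - 1) → 𝓞 K, (∀ i, (q : 𝓞 K) ∣ a i - a0 i) →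
    Irreducible (polK n a) ∧
    ∀ θ : AlgebraicClosure K, aeval θ (polK n a) = 0 → Sym (IntermediateField.adjoin K {θ})

/-- CAS (helper15). `J` small independent elements make the discriminant very small. -/
def S_CAS : Prop := ∀ (K : Type) [Field K] [NumberField K] (n J c : ℕ), 2 ≤ n → 1 ≤ J →
  n ≤ c * J + 1 → ∃ C : ℝ, 1 ≤ C ∧
  ∀ (L : IntermediateField K (AlgebraicClosure K)) (T : ℝ) (w : Fin J → AlgebraicClosure K),
  Module.finrank K L = n → Sym L → 1 ≤ T →
  (∀ i, w i ∈ L ∧ IsIntegral ℤ (w i) ∧ Siz (w i) T) →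
  LinearIndependent K (Fin.cons 1 w : Fin (J + 1) → AlgebraicClosure K) →
  DB L ((C * T ^ (Module.finrank ℚ K * (n * c))) ^ 2)

/-- PKF. Packing in a field.

PROOF (compare `Pool.Agent.D0H52.SF.Pkf`): `S_PAK` in `E = (L →+* ℂ) → ℂ` (sup norm); every embedding of `L` extends to
`AlgebraicClosure K`; the real span of the image of `S` has dimension at most
`dim_ℚ (span_ℚ S) ≤ dim_ℚ (span_K S) = d * dim_K (span_K S) ≤ d J`. -/
def S_PKF : Prop := ∀ (K : Type) [Field K] [NumberField K]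
  (L : IntermediateField K (AlgebraicClosure K)) [FiniteDimensional K L]
  (S : Finset (AlgebraicClosure K)) (T l : ℝ) (J : ℕ), 0 < l → 0 ≤ T →
  (∀ x ∈ S, x ∈ L ∧ Siz x T) → (∀ x ∈ S, ∀ y ∈ S, x ≠ y → Lrg (x - y) l) →
  Module.finrank K (Submodule.span K (S : Set (AlgebraicClosure K))) ≤ J →
  (S.card : ℝ) ≤ (1 + 2 * T / l) ^ (Module.finrank ℚ K * J)

/-- ONE. A nonzero algebraic integer has a conjugate of absolute value at least one
(compare `Pool.Agent.D0H52.SF.One`). -/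
def S_ONE : Prop := ∀ (K : Type) [Field K] [NumberField K] (x : AlgebraicClosure K),
  IsIntegral ℤ x → x ≠ 0 → Lrg x 1

/-- SMF (helper15). Few fields with a small element. -/
def S_SMF : Prop := ∀ (K : Type) [Field K] [NumberField K] (n : ℕ), 3 ≤ n → ∃ C : ℝ, 0 < C ∧
  ∀ l : ℝ, 1 ≤ l →
  {L : IntermediateField K (AlgebraicClosure K) | Module.finrank K L = n ∧ Sym L ∧
    ∃ θ ∈ L, IsIntegral ℤ θ ∧ θ ∉ Set.range (algebraMap K (AlgebraicClosure K)) ∧ Siz θ l}.Finite ∧
  ({L : IntermediateField K (AlgebraicClosure K) | Module.finrank K L = n ∧ Sym L ∧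
    ∃ θ ∈ L, IsIntegral ℤ θ ∧ θ ∉ Set.range (algebraMap K (AlgebraicClosure K)) ∧
      Siz θ l}.ncard : ℝ) ≤ C * l ^ (Module.finrank ℚ K * (n * (n + 1) / 2))

/-- TRZ (helper15). Different roots of trace zero differ by an element outside `K`. -/
def S_TRZ : Prop := ∀ (K : Type) [Field K] [NumberField K] (n : ℕ)
  (L : IntermediateField K (AlgebraicClosure K)) (a a' : Fin (n - 1) → 𝓞 K)
  (x y : AlgebraicClosure K), 2 ≤ n → Module.finrank K L = n → x ∈ L → y ∈ L →
  Irreducible (polK n a) → Irreducible (polK n a') → aeval x (polK n a) = 0 →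
  aeval y (polK n a') = 0 → x ≠ y → x - y ∉ Set.range (algebraMap K (AlgebraicClosure K))

/-! ### Assembly -/

/-- VER (helper15): the count in terms of `V`. -/
def S_VER : Prop := ∀ (K : Type) [Field K] [NumberField K] (n k J c : ℕ) (E C₀ : ℝ), 2 ≤ k →
  2 * k ≤ n → 1 ≤ J → n ≤ c * J + 1 → 0 ≤ E →
  (∀ X : ℝ, 1 ≤ X → (Flds K n X).Finite ∧ ((Flds K n X).ncard : ℝ) ≤ C₀ * X ^ E) →
  4 * n * c * E + 2 * n + 4 + k * (n + 1 - k : ℕ) < (n : ℝ) ^ 2 + n →
  n * (n + 1) / 2 + 2 * J + 4 + k * (n + 1 - k) < n ^ 2 + n →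
  ∃ C : ℝ, 0 < C ∧ ∃ V₀ : ℕ, ∀ V ≥ V₀,
    (V : ℝ) ^ (Module.finrank ℚ K * (n ^ 2 + n - 5 - J - k * (n + 1 - k))) ≤
      ((SymF K n (C * (V : ℝ) ^ (Module.finrank ℚ K *
        (2 * n * (n - 1) - 2 * k * (n + 1 - k))))).ncard : ℝ)

/-- EXP (helper15): the final exponent. -/
def S_EXP : Prop := ∃ (C : ℝ) (n₀ : ℕ), ∀ n : ℕ, n₀ ≤ n → ∀ (K : Type) [Field K] [NumberField K],
  ∃ X₀ : ℝ, ∀ X : ℝ, X₀ ≤ X → (SymF K n X).Finite ∧
  X ^ ((1 : ℝ) / 2 + 4 / (3 * n) - C * (Real.log n) ^ 2 / (n : ℝ) ^ 2) ≤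
    ((SymF K n X).ncard : ℝ)

end Pool.Agent.D0H15.SK
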